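import Pool.Agent.H4.FRU.SC1
import Pool.Agent.H31.CT.TRX

/-!
Module AG1 of project FRU: the generic matrix.
-/

set_option linter.unusedVariables false
set_option synthInstance.maxSize 100000

namespace SW.FU

section
variable {M : Type} [SetStr M] [ZF M]

theorem ag1_et {w I : M} (hw : IsW w) (wf : WFacts w) {G : M → Prop} (hG : Gen (PG1 w I) G)
    [ZF (Ext (PG1 w I) G)] {S b n : Ext (PG1 w I) G} :
    Et (mk (PG1 w I) G (AA w I)) S b n ↔ ∃ p S0 b0 n0, G p ∧ Et p S0 b0 n0 ∧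
      S = emb (PG1 w I) G S0 ∧ b = emb (PG1 w I) G b0 ∧ n = emb (PG1 w I) G n0 := by
  have ef := embF hG
  have tf := traF hG
  unfold AA
  show E _ _ ↔ _
  rw [mem_mk_Nmx hG inferInstance]
  constructor
  · rintro ⟨p, z, hp, hz, hzp, he⟩
    obtain ⟨a, ha⟩ := sc1_mat (hG.sub p hp)
    obtain ⟨S0, b0, n0, _, _, _, rfl⟩ := ha.2.2.1 z hzp
    rw [tf.opair, tf.opair, opair_inj, opair_inj] at he
    exact ⟨p, S0, b0, n0, hp, hzp, he.1, he.2.1, he.2.2⟩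
  · rintro ⟨p, S0, b0, n0, hp, h, rfl, rfl, rfl⟩
    obtain ⟨a, ha⟩ := sc1_mat (hG.sub p hp)
    exact ⟨p, opair S0 (opair b0 n0), hp, sc1_sub hw wf ha _ h, h, by rw [tf.opair, tf.opair]⟩

end

/-- AG1 -/
theorem fru_ag1 (hwf : WFStmt) (hex : EX1Stmt) : AG1Stmt := by
  intro M _ _ _ w I G hw heI hG _
  have wf := hwf M w hw
  have ef := embF hG
  have tf := traF hG
  have hdir : ∀ {p q : M}, G p → G q → ∃ r, G r ∧ Le1 r p ∧ Le1 r q := fun hp hq => hG.dir _ _ hp hq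
  -- some condition has the entry
  have hent : ∀ K c, E K I → E c w → ∃ p x, G p ∧ Et p K c x := by
    intro K c hK hc
    obtain ⟨p, hp, x, hx⟩ := (genF hG).meetC (fun q : M => ∃ x : M, Et q K c x) inferInstance (by
      intro p hp
      obtain ⟨q, h1, h2, x, h3⟩ := hex M w I p K c hw heI hp hK hc
      exact ⟨q, h1, h2, x, h3⟩)
    exact ⟨p, x, hp, hx⟩
  refine ⟨?_, ?_, ?_⟩
  · intro S b hS hb
    obtain ⟨S0, hS0, rfl⟩ := ef.trans _ _ hS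
    obtain ⟨b0, hb0, rfl⟩ := ef.trans _ _ hb
    obtain ⟨p, x, hp, hx⟩ := hent S0 b0 hS0 hb0
    obtain ⟨a, ha⟩ := sc1_mat (hG.sub p hp)
    refine ⟨emb _ G x, ?_, (ag1_et hw wf hG).2 ⟨p, S0, b0, x, hp, hx, rfl, rfl, rfl⟩⟩
    rw [← tf.om, ef.mem]
    exact (sc1_row ha hx).2.2
  · intro S b n n' h h'
    obtain ⟨p, S0, b0, n0, hp, hx, rfl, rfl, rfl⟩ := (ag1_et hw wf hG).1 h
    obtain ⟨q, S1, b1, n1, hq, hx', hS, hb, rfl⟩ := (ag1_et hw wf hG).1 h'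
    rw [ef.inj] at hS hb
    subst hS hb
    obtain ⟨r, hr, h1, h2⟩ := hdir hp hq
    obtain ⟨a, ha⟩ := sc1_mat (hG.sub r hr)
    rw [ha.2.2.2.1 S0 b0 n0 n1 (h1.1 _ hx) (h2.1 _ hx')]
  · intro S S' hS hS' hne
    obtain ⟨S0, hS0, rfl⟩ := ef.trans _ _ hS
    obtain ⟨S1, hS1, rfl⟩ := ef.trans _ _ hS'
    have hne' : S0 ≠ S1 := fun h => hne (by rw [h])
    obtain ⟨p, x, hp, hx⟩ := hent S0 emp hS0 (sc1_emp_w wf)
    obtain ⟨q, y, hq, hy⟩ := hent S1 emp hS1 (sc1_emp_w wf)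
    obtain ⟨r, hr, h1, h2⟩ := hdir hp hq
    have hc0 : Col r S0 := ⟨emp, x, h1.1 _ hx⟩
    have hc1 : Col r S1 := ⟨emp, y, h2.1 _ hy⟩
    obtain ⟨a, ha⟩ := sc1_mat (hG.sub r hr)
    refine ⟨emb _ G a, (ef.mem _ _).2 (sc1_ht wf ha), fun b n hb h h' => ?_⟩
    obtain ⟨p1, T0, b0, n0, hp1, hx1, hT, rfl, rfl⟩ := (ag1_et hw wf hG).1 h
    obtain ⟨p2, T1, b1, n1, hp2, hx2, hT', hb1, hn1⟩ := (ag1_et hw wf hG).1 h'
    rw [ef.inj] at hT hT' hb1 hn1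
    subst hT hT' hb1 hn1
    rw [ef.mem] at hb
    obtain ⟨r1, hr1, h3, h4⟩ := hdir hp1 hp2
    obtain ⟨r2, hr2, h5, h6⟩ := hdir hr1 hr
    exact h6.2 S0 S1 b0 n0 n0 hne' hc0 hc1 (h5.1 _ (h3.1 _ hx1)) (h5.1 _ (h4.1 _ hx2))
      (fun z hz => hb (sc1_row ha hz).2.1) rfl

end SW.FU
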