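import Pool.Agent.H4.FRU.SC1
import Pool.Agent.H17.CT.AMA

/-!
Module EX1 of project FRU: matrices have extensions with a given column and a given row.
-/

set_option linter.unusedVariables false
set_option synthInstance.maxSize 100000

namespace SW.FU

section
variable {M : Type} [SetStr M] [ZF M]

/-- the number of the column `L` -/
noncomputable def ex1X (f g L : M) : M := app g (sep om (fun n => E (opair L n) f))

instance {n : ℕ} {t s u : (Fin n → M) → M} [ht : DfT t] [hs : DfT s] [hu : DfT u] :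
    DfT (fun v => ex1X (t v) (s v) (u v)) := by unfold ex1X; infer_instance

/-- the extended matrix -/
noncomputable def ex1Q (w I p K a a' f g C : M) : M :=
  sep (prod (ins emp I) (prod w om)) (fun z => ∃ L b x, z = opair L (opair b x) ∧
    (Et p L b x ∨ (E L C ∧ E b a' ∧ ¬ E b a ∧ x = ex1X f g L) ∨
      (¬ E L C ∧ L = K ∧ E b a' ∧ x = emp)))

theorem ex1_et {w I p K a a' f g C L b x : M} :
    Et (ex1Q w I p K a a' f g C) L b x ↔ ((E L I ∨ L = emp) ∧ E b w ∧ E x om) ∧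
      (Et p L b x ∨ (E L C ∧ E b a' ∧ ¬ E b a ∧ x = ex1X f g L) ∨
      (¬ E L C ∧ L = K ∧ E b a' ∧ x = emp)) := by
  unfold ex1Q
  show E _ _ ↔ _
  rw [mem_sep' inferInstance, mem_prod, mem_ins, mem_prod]
  refine and_congr_right fun _ => ?_
  constructor
  · rintro ⟨L', b', x', h1, h2⟩
    rw [opair_inj, opair_inj] at h1
    obtain ⟨rfl, rfl, rfl⟩ := h1
    exact h2
  · intro h
    exact ⟨L, b, x, rfl, h⟩

end

/-- EX1 -/
theorem fru_ex1 (hcb : CBTStmt) (hwf : WFStmt) (hac : ACFStmt) : EX1Stmt := by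
  intro M _ _ w I p K c hw heI hp hK hc
  have cb := hcb M
  have wf := hwf M w hw
  obtain ⟨a, ha⟩ := sc1_mat hp
  have haw := sc1_ht wf ha
  have hOa : Ord a := wf.ord haw
  have hOc : Ord (suc c) := wf.ord (wf.suc hc)
  obtain ⟨a', ha'w, haa', hca'⟩ : ∃ a', E a' w ∧ Sub a a' ∧ E c a' := by
    rcases hOa.tri hOc with h | h | h
    · exact ⟨suc c, wf.suc hc, fun z hz => hOc.1 _ h z hz, mem_suc.2 (Or.inr rfl)⟩
    · exact ⟨suc c, wf.suc hc, by rw [h]; exact Sub.refl _, mem_suc.2 (Or.inr rfl)⟩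
    · exact ⟨a, haw, Sub.refl _, hOa.1 _ h _ (mem_suc.2 (Or.inr rfl))⟩
  have hcol : ∀ L, E L (dmn p) ↔ Col p L := by
    intro L
    rw [mem_dmn]
    constructor
    · rintro ⟨y, hy⟩
      obtain ⟨K', b, x, _, _, _, h⟩ := ha.2.2.1 _ hy
      rw [opair_inj] at h
      obtain ⟨rfl, rfl⟩ := h
      exact ⟨b, x, hy⟩
    · rintro ⟨b, x, h⟩
      exact ⟨_, h⟩
  generalize hCdef : ins emp (dmn p) = C
  have hC : ∀ L, E L C ↔ (Col p L ∨ L = emp) := by
    intro L
    rw [← hCdef, mem_ins, hcol]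
  have hCb : Cb C := by
    rw [← hCdef]
    have h1 : Cb (bun (dmn p) (ins emp emp)) :=
      cb.bun (ama_cb_dmn cb.toCbA ha.2.1) (cb.fin (finF.ins finF.emp))
    refine cb.sub h1 fun z hz => ?_
    rw [mem_ins] at hz
    rw [mem_bun, mem_ins]
    exact hz.imp id Or.inr
  obtain ⟨f, hf1, hf2⟩ := hCb
  have hCb : Cb C := ⟨f, hf1, hf2⟩
  obtain ⟨g, hg⟩ := hac M om
  have hX : ∀ L, E L C → E (ex1X f g L) om ∧ E (opair L (ex1X f g L)) f := by
    intro L hL
    have h1 : Sub (sep om (fun n => E (opair L n) f)) om := fun z hz =>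
      ((mem_sep' inferInstance).1 hz).1
    obtain ⟨n, hn, hnf⟩ := hf1 L hL
    have h2 := hg _ h1 ⟨n, (mem_sep' inferInstance).2 ⟨hn, hnf⟩⟩
    exact (mem_sep' inferInstance).1 h2
  have hXinj : ∀ L L', E L C → E L' C → ex1X f g L = ex1X f g L' → L = L' := by
    intro L L' hL hL' h
    have h1 := hX L hL
    have h2 := hX L' hL'
    rw [← h] at h2
    exact hf2 L L' _ hL hL' h1.1 h1.2 h2.2
  have hCI : ∀ L, E L C → (E L I ∨ L = emp) := by
    intro L hL
    rcases (hC L).1 hL with ⟨b, x, h⟩ | h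
    · exact (sc1_row ha h).1.symm
    · exact Or.inr h
  have hOa' : Ord a' := wf.ord ha'w
  have ha'sw : ∀ b, E b a' → E b w := fun b hb => hw.1.1 _ ha'w _ hb
  have hq : ∀ L b x, Et (ex1Q w I p K a a' f g C) L b x ↔
      (Et p L b x ∨ (E L C ∧ E b a' ∧ ¬ E b a ∧ x = ex1X f g L) ∨
      (¬ E L C ∧ L = K ∧ E b a' ∧ x = emp)) := by
    intro L b x
    rw [ex1_et]
    constructor
    · exact fun h => h.2
    · intro h
      refine ⟨?_, h⟩
      rcases h with h | ⟨h1, h2, h3, rfl⟩ | ⟨h1, rfl, h3, rfl⟩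
      · have h1 := sc1_row ha h
        exact ⟨h1.1.symm, ha'sw b (haa' _ h1.2.1), h1.2.2⟩
      · exact ⟨hCI L h1, ha'sw b h2, (hX L h1).1⟩
      · exact ⟨Or.inl hK, ha'sw b h3, emp_mem_om⟩
  have hq0 : ∀ z, E z (ex1Q w I p K a a' f g C) → ∃ L b x, z = opair L (opair b x) := by
    intro z hz
    unfold ex1Q at hz
    rw [mem_sep' inferInstance] at hz
    obtain ⟨_, L, b, x, h, _⟩ := hz
    exact ⟨L, b, x, h⟩
  generalize ex1Q w I p K a a' f g C = q at hq hq0
  have hpC : ∀ L b x, Et p L b x → E L C := fun L b x h => (hC L).2 (Or.inl ⟨b, x, h⟩)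
  have hrow : ∀ L b, E L C → E b a → ∃ x, Et p L b x := by
    intro L b hL hb
    rcases (hC L).1 hL with h | rfl
    · exact ha.2.2.2.2.1 L b h hb
    · exact ha.2.2.2.2.2 b hb
  have hrow' : ∀ L b, E L C → E b a' → ∃ x, Et q L b x := by
    intro L b hL hb
    by_cases hba : E b a
    · obtain ⟨x, hx⟩ := hrow L b hL hba
      exact ⟨x, (hq L b x).2 (Or.inl hx)⟩
    · exact ⟨_, (hq L b _).2 (Or.inr (Or.inl ⟨hL, hb, hba, rfl⟩))⟩
  have hK' : ∀ L b x, Et q L b x → ¬ E L C → L = K := by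
    intro L b x h hL
    rcases (hq L b x).1 h with h | ⟨h, _⟩ | ⟨_, h, _⟩
    · exact absurd (hpC L b x h) hL
    · exact absurd h hL
    · exact h
  have hqr : ∀ L b x, Et q L b x → (L = emp ∨ E L I) ∧ E b a' ∧ E x om := by
    intro L b x h
    rcases (hq L b x).1 h with h | ⟨h1, h2, h3, rfl⟩ | ⟨h1, rfl, h3, rfl⟩
    · have h1 := sc1_row ha h
      exact ⟨h1.1, haa' _ h1.2.1, h1.2.2⟩
    · exact ⟨(hCI L h1).symm, h2, (hX L h1).1⟩
    · exact ⟨Or.inr hK, h3, emp_mem_om⟩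
  have hmat : Mat w I a' q := by
    refine ⟨Or.inl ha'w, ?_, ?_, ?_, ?_, ?_⟩
    · have h1 : Cb (prod (bun C (ins K emp)) (prod a' om)) :=
        cb.prod (cb.bun hCb (cb.fin (finF.ins finF.emp))) (cb.prod (hw.2.2 a' ha'w) cb.om)
      refine cb.sub h1 fun z hz => ?_
      obtain ⟨L, b, x, rfl⟩ := hq0 z hz
      have h2 := hqr L b x hz
      rw [mem_prod, mem_prod, mem_bun, mem_ins]
      refine ⟨?_, h2.2⟩
      by_cases hL : E L C
      · exact Or.inl hL
      · exact Or.inr (Or.inr (hK' L b x hz hL))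
    · intro z hz
      obtain ⟨L, b, x, rfl⟩ := hq0 z hz
      have h2 := hqr L b x hz
      exact ⟨L, b, x, h2.1, h2.2.1, h2.2.2, rfl⟩
    · intro L b x x' h h'
      rw [hq] at h h'
      rcases h with h | ⟨h1, h2, h3, rfl⟩ | ⟨h1, rfl, h3, rfl⟩
      · rcases h' with h' | ⟨k1, k2, k3, rfl⟩ | ⟨k1, rfl, k3, rfl⟩
        · exact ha.2.2.2.1 L b x x' h h'
        · exact absurd (sc1_row ha h).2.1 k3
        · exact absurd (hpC _ _ _ h) k1
      · rcases h' with h' | ⟨k1, k2, k3, rfl⟩ | ⟨k1, rfl, k3, rfl⟩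
        · exact absurd (sc1_row ha h').2.1 h3
        · rfl
        · exact absurd h1 k1
      · rcases h' with h' | ⟨k1, k2, k3, rfl⟩ | ⟨k1, k2, k3, rfl⟩
        · exact absurd (hpC _ _ _ h') h1
        · exact absurd k1 h1
        · rfl
    · rintro L b ⟨b', x', h⟩ hb
      by_cases hL : E L C
      · exact hrow' L b hL hb
      · have := hK' L b' x' h hL
        exact ⟨emp, (hq L b emp).2 (Or.inr (Or.inr ⟨hL, this, hb, rfl⟩))⟩
    · intro b hb
      exact hrow' emp b ((hC emp).2 (Or.inr rfl)) hb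
  refine ⟨q, mem_P1'.2 ⟨sc1_sub hw wf hmat, a', hmat⟩, ⟨?_, ?_⟩, ?_⟩
  · intro z hz
    obtain ⟨L, b, x, _, _, _, rfl⟩ := ha.2.2.1 z hz
    exact (hq L b x).2 (Or.inl hz)
  · intro L L' b x x' hne hL hL' hx hx' hnew
    have hLC : E L C := (hC L).2 (Or.inl hL)
    have hL'C : E L' C := (hC L').2 (Or.inl hL')
    have hba : ¬ E b a := by
      intro hb
      obtain ⟨y, hy⟩ := hrow L b hLC hb
      exact hnew y hy
    have h1 : ∀ L x, E L C → Et q L b x → x = ex1X f g L := by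
      intro L x hL h
      rcases (hq L b x).1 h with h | ⟨_, _, _, h⟩ | ⟨h, _⟩
      · exact absurd (sc1_row ha h).2.1 hba
      · exact h
      · exact absurd hL h
    rw [h1 L x hLC hx, h1 L' x' hL'C hx']
    exact fun h => hne (hXinj L L' hLC hL'C h)
  · by_cases hKC : E K C
    · exact hrow' K c hKC hca'
    · exact ⟨emp, (hq K c emp).2 (Or.inr (Or.inr ⟨hKC, rfl, hca', rfl⟩))⟩

end SW.FU
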