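import Pool.Agent.H14.FRU.Stmts

/-!
Module SC1 of project FRU: the first poset is closed. Basic facts on matrices.
-/

set_option linter.unusedVariables false
set_option synthInstance.maxSize 100000

namespace SW.FU

section
variable {M : Type} [SetStr M] [ZF M]

theorem sc1_row {w I a p K b x : M} (h : Mat w I a p) (he : Et p K b x) :
    (K = emp ∨ E K I) ∧ E b a ∧ E x om := by
  obtain ⟨K', b', x', h1, h2, h3, h4⟩ := h.2.2.1 _ he
  rw [opair_inj, opair_inj] at h4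
  obtain ⟨rfl, rfl, rfl⟩ := h4
  exact ⟨h1, h2, h3⟩

theorem sc1_mono {w I a b p q : M} (hp : Mat w I a p) (hq : Mat w I b q) (h : Sub p q) :
    Sub a b := by
  intro c hc
  obtain ⟨x, hx⟩ := hp.2.2.2.2.2 c hc
  exact (sc1_row hq (h _ hx)).2.1

theorem sc1_uniq {w I a b p : M} (hp : Mat w I a p) (hq : Mat w I b p) : a = b := by
  refine ext fun c => ⟨fun hc => sc1_mono hp hq (Sub.refl _) c hc,
    fun hc => sc1_mono hq hp (Sub.refl _) c hc⟩

theorem sc1_mat {w I p : M} (h : E p (P1 w I)) : ∃ a, Mat w I a p := (mem_P1'.1 h).2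

theorem sc1_emp_w {w : M} (wf : WFacts w) : E emp w := wf.om _ emp_mem_om

theorem sc1_ht {w I a p : M} (wf : WFacts w) (h : Mat w I a p) : E a w := by
  rcases h.1 with h | rfl
  · exact h
  · exact sc1_emp_w wf

theorem sc1_sub {w I a p : M} (hw : IsW w) (wf : WFacts w) (h : Mat w I a p) :
    Sub p (prod (ins emp I) (prod w om)) := by
  intro z hz
  obtain ⟨K, b, x, h1, h2, h3, rfl⟩ := h.2.2.1 z hz
  rw [mem_prod, mem_ins, mem_prod]
  exact ⟨h1.symm, hw.1.1 _ (sc1_ht wf h) _ h2, h3⟩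

theorem sc1_two {m n : M} (hm : E m om) (hn : E n om) :
    ∃ k, E k om ∧ (E m k ∨ m = k) ∧ (E n k ∨ n = k) := by
  rcases (Ord_nat hm).tri (Ord_nat hn) with h | h | h
  · exact ⟨n, hn, Or.inl h, Or.inr rfl⟩
  · subst h
    exact ⟨m, hm, Or.inr rfl, Or.inr rfl⟩
  · exact ⟨m, hm, Or.inr rfl, Or.inl h⟩

end

/-- SC1 -/
theorem fru_sc1 (hcb : CBTStmt) (hwf : WFStmt) : SC1Stmt := by
  intro M _ _ w I hw heI f hf
  have cb := hcb M
  have wf := hwf M w hw
  have hP : ∀ n, E n om → E (app f n) (P1 w I) := fun n hn => (hf n hn).1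
  have mono : ∀ n, E n om → ∀ m, E m n → Le1 (app f n) (app f m) := by
    refine om_ind (C := fun n : M => ∀ m : M, E m n → Le1 (app f n) (app f m)) inferInstance ?_ ?_
    · intro m hm
      exact absurd hm (not_mem_emp m)
    · intro n hn ih m hm
      rw [mem_suc] at hm
      rcases hm with hm | rfl
      · exact Le1_trans (hP _ (suc_mem_om hn)) (hP n hn) (hf n hn).2 (ih m hm)
      · exact (hf m hn).2
  have mono' : ∀ n m, E n om → (E m n ∨ m = n) → Le1 (app f n) (app f m) := by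
    rintro n m hn (h | rfl)
    · exact mono n hn m h
    · exact Le1_refl _
  have two : ∀ {m n : M}, E m om → E n om →
      ∃ k, E k om ∧ Le1 (app f k) (app f m) ∧ Le1 (app f k) (app f n) := by
    intro m n hm hn
    obtain ⟨k, hk, h1, h2⟩ := sc1_two hm hn
    exact ⟨k, hk, mono' k m hk h1, mono' k n hk h2⟩
  -- the heights
  let H : M → M := fun n => the (fun a : M => Mat w I a (app f n))
  have hH : Fn1 H := by
    show Fn1 (fun n : M => the (fun a : M => Mat w I a (app f n)))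
    infer_instance
  have hc : ∀ n, E n om → Mat w I (H n) (app f n) := by
    intro n hn
    obtain ⟨a, ha⟩ := sc1_mat (hP n hn)
    exact the_spec (p := fun a : M => Mat w I a (app f n)) ⟨a, ha, fun c hc => sc1_uniq hc ha⟩
  have hsw : Sub (img om H) w := by
    intro z hz
    rw [mem_img' hH] at hz
    obtain ⟨n, hn, rfl⟩ := hz
    exact sc1_ht wf (hc n hn)
  obtain ⟨β, hβ, hβ'⟩ := wf.bdd hsw (cb.img H hH cb.om)
  have hOβ : Ord β := wf.ord hβ
  have hmem : ∀ {b : M}, E b (sUn (img om H)) ↔ ∃ n, E n om ∧ E b (H n) := by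
    intro b
    rw [mem_sUn]
    constructor
    · rintro ⟨y, hy, h⟩
      rw [mem_img' hH] at hy
      obtain ⟨n, hn, rfl⟩ := hy
      exact ⟨n, hn, h⟩
    · rintro ⟨n, hn, h⟩
      exact ⟨_, (mem_img' hH).2 ⟨n, hn, rfl⟩, h⟩
  generalize hA : sUn (img om H) = A at hmem
  have hOA : Ord A := by
    rw [← hA]
    exact Ord_sUn fun y hy => wf.ord (hsw y hy)
  have hAw : E A w := by
    have h1 : Sub A β := by
      intro z hz
      obtain ⟨n, hn, h⟩ := hmem.1 hz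
      exact hOβ.trans (hβ' _ ((mem_img' hH).2 ⟨n, hn, rfl⟩)) h
    rcases (hOA.sub_iff hOβ).1 h1 with h | h
    · exact hw.1.trans hβ h
    · rw [h]
      exact hβ
  have hHA : ∀ n, E n om → Sub (H n) A := fun n hn z hz => hmem.2 ⟨n, hn, hz⟩
  have hsub : ∀ n, E n om → Sub (app f n) (uq f) := fun n hn z hz => mem_uq.2 ⟨n, hn, hz⟩
  have et : ∀ {K b x : M}, Et (uq f) K b x → ∃ n, E n om ∧ Et (app f n) K b x :=
    fun h => mem_uq.1 h
  have hmat : Mat w I A (uq f) := by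
    refine ⟨Or.inl hAw, ?_, ?_, ?_, ?_, ?_⟩
    · unfold uq
      exact cb.iUn (fun n : M => app f n) inferInstance cb.om fun n hn => (hc n hn).2.1
    · intro z hz
      obtain ⟨n, hn, h⟩ := mem_uq.1 hz
      obtain ⟨K, b, x, h1, h2, h3, h4⟩ := (hc n hn).2.2.1 z h
      exact ⟨K, b, x, h1, hHA n hn b h2, h3, h4⟩
    · intro K b x x' h h'
      obtain ⟨n, hn, h⟩ := et h
      obtain ⟨m, hm, h'⟩ := et h'
      obtain ⟨k, hk, h1, h2⟩ := two hn hm
      exact (hc k hk).2.2.2.1 K b x x' (h1.1 _ h) (h2.1 _ h')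
    · rintro K b ⟨b', x', h⟩ hbA
      obtain ⟨n, hn, h⟩ := et h
      obtain ⟨m, hm, hbm⟩ := hmem.1 hbA
      obtain ⟨k, hk, h1, h2⟩ := two hn hm
      obtain ⟨x, hx⟩ := (hc k hk).2.2.2.2.1 K b ⟨b', x', h1.1 _ h⟩
        (sc1_mono (hc m hm) (hc k hk) h2.1 b hbm)
      exact ⟨x, hsub k hk _ hx⟩
    · intro b hbA
      obtain ⟨m, hm, hbm⟩ := hmem.1 hbA
      obtain ⟨x, hx⟩ := (hc m hm).2.2.2.2.2 b hbm
      exact ⟨x, hsub m hm _ hx⟩
  refine ⟨uq f, mem_P1'.2 ⟨sc1_sub hw wf hmat, A, hmat⟩, fun n hn => ⟨hsub n hn, ?_⟩⟩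
  intro K K' b x x' hne hK hK' hx hx' hnew
  obtain ⟨m, hm, h1⟩ := et hx
  obtain ⟨m', hm', h2⟩ := et hx'
  obtain ⟨k, hk, h3, h4⟩ := two hm hm'
  obtain ⟨l, hl, h5, h6⟩ := two hk hn
  exact h6.2 K K' b x x' hne hK hK' (h5.1 _ (h3.1 _ h1)) (h5.1 _ (h4.1 _ h2)) hnew

end SW.FU
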