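import Pool.Agent.H14.FRU.TDefs

open Set Topology Filter

namespace FRU

theorem brc_mem (x : ℕ → Bool) (s : List Bool) :
    (∃ k, s = pre x k) ↔ s = pre x s.length := by
  constructor
  · rintro ⟨k, hk⟩
    have hl : s.length = k := by rw [hk]; simp [pre]
    rw [hl]
    exact hk
  · intro h
    exact ⟨_, h⟩

theorem brc_cont : Continuous chi := by
  classical
  apply continuous_pi
  intro s
  rw [continuous_iff_continuousAt]
  intro x
  have hev : ∀ᶠ y in 𝓝 x, chi y s = chi x s := by
    have h1 : ∀ᶠ y : ℕ → Bool in 𝓝 x, ∀ i ∈ Finset.range s.length, y i = x i := by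
      rw [Finset.eventually_all]
      intro i _
      have hc : Continuous fun y : ℕ → Bool => y i := continuous_apply i
      exact hc.continuousAt.eventually_mem (s := {x i}) (by
        rw [nhds_discrete]; exact Filter.mem_pure.2 rfl)
    filter_upwards [h1] with y hy
    have h2 : pre y s.length = pre x s.length := by
      apply List.map_congr_left
      intro i hi
      exact hy i (Finset.mem_range.2 (List.mem_range.1 hi))
    unfold chi
    by_cases h : s = pre x s.length
    · rw [Set.indicator_of_mem, Set.indicator_of_mem]
      · exact (brc_mem x s).2 h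
      · exact (brc_mem y s).2 (h2 ▸ h)
    · rw [Set.indicator_of_notMem, Set.indicator_of_notMem]
      · exact fun h' => h ((brc_mem x s).1 h')
      · exact fun h' => h (h2 ▸ (brc_mem y s).1 h')
  exact (continuousAt_const (y := chi x s)).congr (hev.mono fun y hy => hy.symm)

theorem fru_brc : BRCStmt := isCompact_range brc_cont

end FRU
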