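import Pool.Agent.H4.FRU.Com

open Set Topology Filter

namespace FRU

theorem fru_chf : CHFStmt := by
  intro D I g hg i
  have hop : IsOpen (((↑) : Psi g → OnePoint (Psi g)) '' psiK g i) :=
    OnePoint.isOpen_image_coe.2 (psiK_open i)
  have hcl : IsClosed (((↑) : Psi g → OnePoint (Psi g)) '' psiK g i) :=
    OnePoint.isClosed_image_coe.2 ⟨psiK_closed hg i, psiK_compact i⟩
  have hc : Continuous ((((↑) : Psi g → OnePoint (Psi g)) '' psiK g i).indicator
      (fun _ => (1:ℝ))) := continuous_const.indicator fun a ha => by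
    rw [IsClopen.frontier_eq ⟨hcl, hop⟩] at ha
    exact absurd ha (Set.notMem_empty _)
  refine ⟨⟨_, hc⟩, fun d => ?_⟩
  show (((↑) : Psi g → OnePoint (Psi g)) '' psiK g i).indicator (fun _ => (1:ℝ))
    (Psi.pt g d : Psi g) = _
  by_cases hd : d ∈ g i
  · rw [Set.indicator_of_mem hd, Set.indicator_of_mem]
    exact ⟨_, psiK_pt.2 hd, rfl⟩
  · rw [Set.indicator_of_notMem hd, Set.indicator_of_notMem]
    rintro ⟨x, hx, hxd⟩
    have h := OnePoint.coe_injective hxd
    rw [h] at hx
    exact hd (psiK_pt.1 hx)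

end FRU
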