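import Pool.Agent.H4.FRU.Com

open Set Topology Filter

namespace FRU

section

variable {D I : Type} {g : I → Set D}

theorem fuk_aux (hn : NF g) (hT : T2Space (Psi g)) (s : Set (OnePoint (Psi g)))
    (a : OnePoint (Psi g)) (ha : a ∈ closure s) (has : a ∉ s) : a ∈ seqClosure s := by
  classical
  induction a using OnePoint.rec with
  | coe x =>
    rcases psi_cases x with ⟨d, rfl⟩ | ⟨i, rfl⟩
    · -- isolated point
      have hop : IsOpen (((↑) : Psi g → OnePoint (Psi g)) '' {Psi.pt g d}) :=
        OnePoint.isOpen_image_coe.2 (psi_pt_open d)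
      obtain ⟨y, hy, hys⟩ := mem_closure_iff.1 ha _ hop ⟨_, rfl, rfl⟩
      obtain ⟨z, hz, rfl⟩ := hy
      rw [Set.mem_singleton_iff.1 hz] at hys
      exact absurd hys has
    · -- the points `ix i`
      set E : Set D := {d | d ∈ g i ∧ ((Psi.pt g d : Psi g) : OnePoint (Psi g)) ∈ s} with hE
      have hEi : E.Infinite := by
        intro hfin
        have hop : IsOpen (insert (Psi.ix g i) (Psi.pt g '' (g i \ E)) : Set (Psi g)) := by
          rw [Psi.isOpen_iff]
          rintro j (hj | ⟨d, _, hd⟩)
          · have hj' := psi_ix_inj hj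
            subst hj'
            refine hfin.subset fun d hd => ?_
            by_contra hdE
            exact hd.2 (Or.inr ⟨d, ⟨hd.1, hdE⟩, rfl⟩)
          · exact absurd hd psi_ne
        have hop2 := OnePoint.isOpen_image_coe.2 hop
        obtain ⟨y, hy, hys⟩ := mem_closure_iff.1 ha _ hop2 ⟨_, Or.inl rfl, rfl⟩
        obtain ⟨z, hz, rfl⟩ := hy
        rcases hz with rfl | ⟨d, hd, rfl⟩
        · exact has hys
        · exact hd.2 ⟨hd.1, hys⟩
      refine ⟨fun n => ((Psi.pt g (hEi.natEmbedding E n) : Psi g) : OnePoint (Psi g)),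
        fun n => (hEi.natEmbedding E n).2.2, ?_⟩
      have h1 := psi_tendsto_ix (g := g) (e := fun n => (hEi.natEmbedding E n : D))
        (fun m n h => (hEi.natEmbedding E).injective (Subtype.ext h)) (i := i)
        (fun n => (hEi.natEmbedding E n).2.1)
      exact (OnePoint.continuous_coe.tendsto _).comp h1
  | infty =>
    by_cases hI : {i | ((Psi.ix g i : Psi g) : OnePoint (Psi g)) ∈ s}.Infinite
    · -- infinitely many `ix i`
      set J := {i | ((Psi.ix g i : Psi g) : OnePoint (Psi g)) ∈ s} with hJ
      refine ⟨fun n => ((Psi.ix g (hI.natEmbedding J n) : Psi g) : OnePoint (Psi g)),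
        fun n => (hI.natEmbedding J n).2, ?_⟩
      rw [OnePoint.hasBasis_nhds_infty.tendsto_right_iff]
      rintro K ⟨_, hK⟩
      obtain ⟨F, G, hFG⟩ := psi_compact_sub hK
      have hinj : Function.Injective fun n => (hI.natEmbedding J n : I) :=
        fun m n h => (hI.natEmbedding J).injective (Subtype.ext h)
      rw [← Nat.cofinite_eq_atTop]
      filter_upwards [((Finset.finite_toSet F).preimage hinj.injOn).compl_mem_cofinite]
        with n hn
      left
      refine ⟨_, fun hx => hn ?_, rfl⟩
      rcases hFG _ hx with ⟨i, hi, hxi⟩ | ⟨d, hd, hxd⟩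
      · show ((hI.natEmbedding J n : J) : I) ∈ (F : Set I)
        rw [psiK_ix.1 hxi]
        exact hi
      · exact absurd hxd.symm psi_ne
    · rw [Set.not_infinite] at hI
      set E : Set D := {d | ((Psi.pt g d : Psi g) : OnePoint (Psi g)) ∈ s} with hE
      have hEF : ∀ F : Finset I, (E \ ⋃ i ∈ F, g i).Infinite := by
        intro F hfin
        set F' : Finset I := F ∪ hI.toFinset with hF'
        set K : Set (Psi g) := (⋃ i ∈ F', psiK g i) ∪ Psi.pt g '' (E \ ⋃ i ∈ F, g i) with hK
        have hKc : IsCompact K := by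
          apply IsCompact.union
          · exact F'.isCompact_biUnion fun i _ => psiK_compact i
          · exact (hfin.image _).isCompact
        have hKcl : IsClosed K := hKc.isClosed
        have hop : IsClosed (((↑) : Psi g → OnePoint (Psi g)) '' K) :=
          OnePoint.isClosed_image_coe.2 ⟨hKcl, hKc⟩
        have hsub : s ⊆ ((↑) : Psi g → OnePoint (Psi g)) '' K := by
          intro y hy
          induction y using OnePoint.rec with
          | infty => exact absurd hy has
          | coe y =>
            refine ⟨y, ?_, rfl⟩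
            rcases psi_cases y with ⟨d, rfl⟩ | ⟨i, rfl⟩
            · by_cases hd : d ∈ ⋃ i ∈ F, g i
              · rw [Set.mem_iUnion₂] at hd
                obtain ⟨i, hi, hdi⟩ := hd
                left
                rw [Set.mem_iUnion₂]
                exact ⟨i, Finset.mem_union_left _ hi, psiK_pt.2 hdi⟩
              · exact Or.inr ⟨d, ⟨hy, hd⟩, rfl⟩
            · left
              rw [Set.mem_iUnion₂]
              exact ⟨i, Finset.mem_union_right _ (hI.mem_toFinset.2 hy), psiK_ix.2 rfl⟩
        have h2 := closure_minimal hsub hop ha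
        obtain ⟨z, _, hz⟩ := h2
        exact OnePoint.coe_ne_infty z hz
      obtain ⟨E', hE', hEi, hEg⟩ := hn E hEF
      have hinj : Function.Injective fun n => (hEi.natEmbedding E' n : D) :=
        fun m n h => (hEi.natEmbedding E').injective (Subtype.ext h)
      refine ⟨fun n => ((Psi.pt g (hEi.natEmbedding E' n) : Psi g) : OnePoint (Psi g)),
        fun n => hE' (hEi.natEmbedding E' n).2, ?_⟩
      apply psi_tendsto_infty hinj
      intro i
      refine ((hEg i).preimage hinj.injOn).subset fun n hn' => ?_
      exact ⟨(hEi.natEmbedding E' n).2, hn'⟩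

end

theorem fru_fuk (hpsi : PSIStmt) : FUKStmt := by
  intro D I g hg hn
  refine ⟨fun s a ha => ?_⟩
  by_cases has : a ∈ s
  · exact ⟨fun _ => a, fun _ => has, tendsto_const_nhds⟩
  · exact fuk_aux hn (hpsi D I g hg).1 s a ha has

end FRU
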