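import Pool.Agent.H4.FRU.Com

open Set Topology Filter

namespace FRU

theorem nzb_len (x : ℕ → Bool) (k : ℕ) : (pre x k).length = k := by simp [pre]

theorem nzb_succ (x : ℕ → Bool) (k : ℕ) : pre x (k + 1) = pre x k ++ [x k] := by
  simp [pre, List.range_succ]

theorem nzb_val {x y : ℕ → Bool} {k i : ℕ} (h : pre x k = pre y k) (hi : i < k) : x i = y i := by
  have h1 : ∀ a ∈ List.range k, x a = y a := List.map_inj_left.1 h
  exact h1 i (List.mem_range.2 hi)

theorem nzb_chi_pre (x : ℕ → Bool) (k : ℕ) : chi x (pre x k) = 1 :=
  Set.indicator_of_mem (s := {s | ∃ k, s = pre x k}) ⟨k, rfl⟩ _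

theorem nzb_chi_off (x : ℕ → Bool) (k : ℕ) : chi x (pre x k ++ [!x k]) = 0 := by
  apply Set.indicator_of_notMem
  rintro ⟨l, hl⟩
  have h1 : l = k + 1 := by
    have := congrArg List.length hl
    simpa [nzb_len] using this.symm
  rw [h1, nzb_succ] at hl
  have h2 := List.append_cancel_left hl
  simp at h2

theorem fru_nzb : NZBStmt := by
  intro W _ h r A j _ f hf x α hx
  classical
  by_cases hr : ∃ X, r X = x
  · obtain ⟨X, rfl⟩ := hr
    have hinj : Function.Injective fun n : ℕ => (Sum.inl (pre (r X) n) : DD W) := by
      intro m n hmn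
      have h1 := Sum.inl_injective hmn
      have h2 := congrArg List.length h1
      rwa [nzb_len, nzb_len] at h2
    have hmem : ∀ n : ℕ, (Sum.inl (pre (r X) n) : DD W) ∈ gg r A j X := fun n => Or.inl ⟨n, rfl⟩
    have ht := psi_tendsto_ix (g := gg r A j) hinj hmem
    have hfc : Continuous fun p : Psi (gg r A j) => f p := hf.comp OnePoint.continuous_coe
    have h1 : Tendsto (fun n : ℕ => f (Psi.pt (gg r A j) (Sum.inl (pre (r X) n)) :
        Psi (gg r A j))) atTop (𝓝 (f (Psi.ix (gg r A j) X : Psi (gg r A j)))) :=
      (hfc.tendsto _).comp ht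
    have h2 : f (Psi.ix (gg r A j) X : Psi (gg r A j)) = 1 := by
      refine tendsto_nhds_unique h1 ?_
      have h3 : (fun n : ℕ => f (Psi.pt (gg r A j) (Sum.inl (pre (r X) n)) :
          Psi (gg r A j))) = fun _ => 1 := by
        ext n
        rw [hx, nzb_chi_pre]
      rw [h3]
      exact tendsto_const_nhds
    set N := max (A X α) (j X α) with hN
    let e : ℕ → DD W := fun n => Sum.inr (α, decide (α ∈ X),
      ⟨pre (r X) (n + N), ⟨A X α, by
        rw [nzb_len]
        have := le_max_left (A X α) (j X α)
        omega⟩⟩)
    have heinj : Function.Injective e := by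
      intro m n hmn
      have h3 := congrArg (fun z : DD W => Sum.elim (fun _ => 0)
        (fun z => z.2.2.1.length) z) hmn
      simp only [e, Sum.elim_inr, nzb_len] at h3
      omega
    have hemem : ∀ n, e n ∈ gg r A j X := by
      intro n
      refine Or.inr ⟨α, _, rfl, ?_, rfl, ?_⟩
      · show pre (r X) (n + N) = pre (r X) (pre (r X) (n + N)).length
        rw [nzb_len]
      · show j X α ≤ (pre (r X) (n + N)).length
        rw [nzb_len]
        have := le_max_right (A X α) (j X α)
        omega
    have ht2 := (hfc.tendsto _).comp (psi_tendsto_ix (g := gg r A j) heinj hemem)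
    rw [h2] at ht2
    have h4 := ht2.eventually_ne one_ne_zero
    obtain ⟨n, hn⟩ := h4.exists
    exact ⟨_, hn⟩
  · exfalso
    have hne : ∀ X, r X ≠ x := fun X hX => hr ⟨X, hX⟩
    have hinj : Function.Injective fun n : ℕ => (Sum.inl (pre x n) : DD W) := by
      intro m n hmn
      have h1 := Sum.inl_injective hmn
      have h2 := congrArg List.length h1
      rwa [nzb_len, nzb_len] at h2
    have hinj2 : Function.Injective fun n : ℕ => (Sum.inl (pre x n ++ [!x n]) : DD W) := by
      intro m n hmn
      have h1 := Sum.inl_injective hmn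
      have h2 := congrArg List.length h1
      simp [nzb_len] at h2
      exact h2
    have hfin : ∀ X, {n : ℕ | (Sum.inl (pre x n) : DD W) ∈ gg r A j X}.Finite := by
      intro X
      obtain ⟨i, hi⟩ := Function.ne_iff.1 (hne X)
      refine (Set.finite_le_nat i).subset fun n hn => ?_
      rcases hn with ⟨k, hk⟩ | ⟨β, s, hs, _⟩
      · have h1 := Sum.inl_injective hk
        have h2 : k = n := by
          have h3 := congrArg List.length h1
          rw [nzb_len, nzb_len] at h3
          exact h3.symm
        rw [h2] at h1
        by_contra hlt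
        exact hi (nzb_val h1 (by simpa using hlt)).symm
      · exact absurd hs (by simp)
    have hfin2 : ∀ X, {n : ℕ | (Sum.inl (pre x n ++ [!x n]) : DD W) ∈ gg r A j X}.Finite := by
      intro X
      have hkey : ∀ n, (Sum.inl (pre x n ++ [!x n]) : DD W) ∈ gg r A j X →
          pre x n = pre (r X) n ∧ r X n = !x n := by
        intro n hn
        rcases hn with ⟨k, hk⟩ | ⟨β, s, hs, _⟩
        · have h1 := Sum.inl_injective hk
          have h2 : k = n + 1 := by
            have h3 := congrArg List.length h1
            simp [nzb_len] at h3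
            exact h3.symm
          rw [h2, nzb_succ] at h1
          have h4 := List.append_inj' h1 rfl
          refine ⟨h4.1, ?_⟩
          have h5 := h4.2
          have h6 : (!x n) = r X n := by simpa using h5
          exact h6.symm
        · exact absurd hs (by simp)
      have hsub : {n : ℕ | (Sum.inl (pre x n ++ [!x n]) : DD W) ∈ gg r A j X}.Subsingleton := by
        have hlt : ∀ m n, m < n → (Sum.inl (pre x m ++ [!x m]) : DD W) ∈ gg r A j X →
            (Sum.inl (pre x n ++ [!x n]) : DD W) ∈ gg r A j X → False := by
          intro m n hmn hm hn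
          have h1 := (hkey m hm).2
          have h2 := nzb_val (hkey n hn).1 hmn
          rw [← h2] at h1
          cases x m <;> simp at h1
        intro m hm n hn
        rcases lt_trichotomy m n with h1 | h1 | h1
        · exact absurd (hlt m n h1 hm hn) id
        · exact h1
        · exact absurd (hlt n m h1 hn hm) id
      exact hsub.finite
    have t1 := (hf.tendsto OnePoint.infty).comp (psi_tendsto_infty (g := gg r A j) hinj hfin)
    have t2 := (hf.tendsto OnePoint.infty).comp (psi_tendsto_infty (g := gg r A j) hinj2 hfin2)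
    have e1 : (f ∘ fun n : ℕ => ((Psi.pt (gg r A j) (Sum.inl (pre x n)) :
        Psi (gg r A j)) : OnePoint (Psi (gg r A j)))) = fun _ => 1 := by
      ext n
      show f _ = 1
      rw [hx, nzb_chi_pre]
    have e2 : (f ∘ fun n : ℕ => ((Psi.pt (gg r A j) (Sum.inl (pre x n ++ [!x n])) :
        Psi (gg r A j)) : OnePoint (Psi (gg r A j)))) = fun _ => 0 := by
      ext n
      show f _ = 0
      rw [hx, nzb_chi_off]
    rw [e1] at t1
    rw [e2] at t2
    have u1 := tendsto_nhds_unique t1 tendsto_const_nhds
    have u2 := tendsto_nhds_unique t2 tendsto_const_nhds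
    rw [u1] at u2
    exact one_ne_zero u2

end FRU
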