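import Pool.Agent.H14.FRU.TDefs

/-! Common lemmas on the space `Ψ`. -/

open Set Topology Filter

namespace FRU

section

variable {D I : Type} {g : I → Set D}

theorem psi_cases (x : Psi g) : (∃ d, x = Psi.pt g d) ∨ ∃ i, x = Psi.ix g i := by
  rcases x with d | i
  · exact Or.inl ⟨d, rfl⟩
  · exact Or.inr ⟨i, rfl⟩

theorem psi_pt_inj {d d' : D} (h : Psi.pt g d = Psi.pt g d') : d = d' := Sum.inl_injective h

theorem psi_ix_inj {d d' : I} (h : Psi.ix g d = Psi.ix g d') : d = d' := Sum.inr_injective h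

theorem psi_ne {d : D} {i : I} : Psi.pt g d ≠ Psi.ix g i := fun h => by
  have h' : (Sum.inl d : D ⊕ I) = Sum.inr i := h
  exact absurd h' (by simp)

/-- the basic compact open set -/
def psiK (g : I → Set D) (i : I) : Set (Psi g) := insert (Psi.ix g i) (Psi.pt g '' g i)

theorem psiK_pt {i : I} {d : D} : Psi.pt g d ∈ psiK g i ↔ d ∈ g i := by
  constructor
  · rintro (h | ⟨d', hd', h⟩)
    · exact absurd h psi_ne
    · rwa [← psi_pt_inj h]
  · intro h
    exact Or.inr ⟨d, h, rfl⟩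

theorem psiK_ix {i j : I} : Psi.ix g j ∈ psiK g i ↔ j = i := by
  constructor
  · rintro (h | ⟨d', hd', h⟩)
    · exact psi_ix_inj h
    · exact absurd h psi_ne
  · rintro rfl
    exact Or.inl rfl

theorem psiK_open (i : I) : IsOpen (psiK g i) := by
  rw [Psi.isOpen_iff]
  intro j hj
  rw [psiK_ix] at hj
  subst hj
  refine Set.finite_empty.subset fun d hd => absurd (psiK_pt.2 hd.1) hd.2

theorem psi_pt_open (d : D) : IsOpen ({Psi.pt g d} : Set (Psi g)) := by
  rw [Psi.isOpen_iff]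
  intro j hj
  exact absurd hj.symm psi_ne

theorem psiK_compact (i : I) : IsCompact (psiK g i) := by
  classical
  apply isCompact_of_finite_subcover
  intro κ U hU hcov
  obtain ⟨c, hc⟩ := Set.mem_iUnion.1 (hcov (psiK_ix.2 rfl : Psi.ix g i ∈ psiK g i))
  have hfin := (Psi.isOpen_iff.1 (hU c)) i hc
  have hch : ∀ d : D, ∃ e : κ, d ∈ g i → Psi.pt g d ∈ U e := by
    intro d
    by_cases hd : d ∈ g i
    · obtain ⟨e, he⟩ := Set.mem_iUnion.1 (hcov (psiK_pt.2 hd))
      exact ⟨e, fun _ => he⟩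
    · exact ⟨c, fun h => absurd h hd⟩
  choose e he using hch
  refine ⟨insert c (hfin.toFinset.image e), ?_⟩
  intro x hx
  rw [Set.mem_iUnion₂]
  rcases psi_cases x with ⟨d, rfl⟩ | ⟨j, rfl⟩
  · rw [psiK_pt] at hx
    by_cases hd : Psi.pt g d ∈ U c
    · exact ⟨c, Finset.mem_insert_self _ _, hd⟩
    · refine ⟨e d, Finset.mem_insert_of_mem (Finset.mem_image.2 ⟨d, ?_, rfl⟩), he d hx⟩
      rw [Set.Finite.mem_toFinset]
      exact ⟨hx, hd⟩
  · rw [psiK_ix] at hx
    subst hx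
    exact ⟨c, Finset.mem_insert_self _ _, hc⟩

theorem psiK_closed (hg : AD g) (i : I) : IsClosed (psiK g i) := by
  rw [← isOpen_compl_iff, Psi.isOpen_iff]
  intro j hj
  have hij : j ≠ i := fun h => hj (psiK_ix.2 h)
  refine (hg j i hij).subset fun d hd => ⟨hd.1, ?_⟩
  by_contra h
  exact hd.2 (fun h' => h (psiK_pt.1 h'))

theorem psi_compact_sub {K : Set (Psi g)} (hK : IsCompact K) :
    ∃ (F : Finset I) (G : Finset D), ∀ x ∈ K, (∃ i ∈ F, x ∈ psiK g i) ∨ ∃ d ∈ G, x = Psi.pt g d := by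
  classical
  obtain ⟨T, hT⟩ := hK.elim_finite_subcover
    (fun c : D ⊕ I => Sum.elim (fun d => ({Psi.pt g d} : Set (Psi g))) (fun i => psiK g i) c)
    (by rintro (d | i); exacts [psi_pt_open d, psiK_open i])
    (by
      intro x _
      rw [Set.mem_iUnion]
      rcases psi_cases x with ⟨d, rfl⟩ | ⟨j, rfl⟩
      · exact ⟨Sum.inl d, rfl⟩
      · exact ⟨Sum.inr j, psiK_ix.2 rfl⟩)
  refine ⟨T.preimage Sum.inr Sum.inr_injective.injOn,
    T.preimage Sum.inl Sum.inl_injective.injOn, fun x hx => ?_⟩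
  have h := hT hx
  rw [Set.mem_iUnion₂] at h
  obtain ⟨c, hc, hxc⟩ := h
  rcases c with d | i
  · exact Or.inr ⟨d, Finset.mem_preimage.2 hc, hxc⟩
  · exact Or.inl ⟨i, Finset.mem_preimage.2 hc, hxc⟩

/-- convergence of isolated points to infinity -/
theorem psi_tendsto_infty {e : ℕ → D} (he : Function.Injective e)
    (h : ∀ i, {n | e n ∈ g i}.Finite) :
    Tendsto (fun n => ((Psi.pt g (e n) : Psi g) : OnePoint (Psi g))) atTop (𝓝 OnePoint.infty) := by
  classical
  rw [OnePoint.hasBasis_nhds_infty.tendsto_right_iff]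
  rintro K ⟨_, hK⟩
  obtain ⟨F, G, hFG⟩ := psi_compact_sub hK
  rw [← Nat.cofinite_eq_atTop]
  have hfin : ((⋃ i ∈ F, {n | e n ∈ g i}) ∪ e ⁻¹' (G : Set D)).Finite :=
    ((Finset.finite_toSet F).biUnion fun i _ => h i).union
      ((Finset.finite_toSet G).preimage he.injOn)
  filter_upwards [hfin.compl_mem_cofinite] with n hn
  left
  refine ⟨Psi.pt g (e n), fun hx => hn ?_, rfl⟩
  rcases hFG _ hx with ⟨i, hi, hxi⟩ | ⟨d, hd, hxd⟩
  · left
    rw [Set.mem_iUnion₂]
    refine ⟨i, hi, ?_⟩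
    show e n ∈ g i
    exact psiK_pt.1 hxi
  · right
    show e n ∈ (G : Set D)
    rw [psi_pt_inj hxd]
    exact hd

/-- convergence of isolated points to `ix i` -/
theorem psi_tendsto_ix {e : ℕ → D} (he : Function.Injective e) {i : I} (h : ∀ n, e n ∈ g i) :
    Tendsto (fun n => Psi.pt g (e n)) atTop (𝓝 (Psi.ix g i)) := by
  rw [tendsto_nhds]
  intro U hU hi
  have hfin := (Psi.isOpen_iff.1 hU) i hi
  rw [← Nat.cofinite_eq_atTop]
  filter_upwards [(hfin.preimage he.injOn).compl_mem_cofinite] with n hn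
  by_contra hnU
  exact hn ⟨h n, hnU⟩

end

end FRU
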